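import Mathlib

/-! # Caps in projective spaces and good sets -/

namespace Pool.Agent.Caps

variable (F : Type) [Field F]

/-- `IsCap F d K`: the finite set `K` of points of the projective space `PG(d,F)` is a cap, that
is, every line of `PG(d,F)` (a subspace of dimension two of `F^(d+1)`) contains at most two points
of `K`. -/
def IsCap (d : ℕ) (K : Finset (Projectivization F (Fin (d + 1) → F))) : Prop :=
  ∀ W : Submodule F (Fin (d + 1) → F), Module.finrank F W = 2 →
    {P : Projectivization F (Fin (d + 1) → F) | P ∈ K ∧ P.submodule ≤ W}.ncard ≤ 2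

/-- The largest size `m(d,q)` of a cap in `PG(d,F)`, for a finite field `F` with `q` elements. -/
noncomputable def capMax (d : ℕ) : ℕ :=
  sSup {m | ∃ K : Finset (Projectivization F (Fin (d + 1) → F)), IsCap F d K ∧ K.card = m}

variable {V : Type} [AddCommGroup V] [Module F V]

/-- An affine cap: no three distinct points are collinear. -/
def IsAffineCap (A : Finset V) : Prop :=
  ∀ x ∈ A, ∀ y ∈ A, ∀ z ∈ A, ∀ l : F, l ≠ 0 → l ≠ 1 → y = l • x + (1 - l) • z → x = z

/-- A good set: for every ratio `l ≠ 0, 1` there are integer weights `a, b, c` with sum zero at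
every point of `D`, such that `a x + b y + c z > 0` for all collinear triples of distinct
points `x, y, z` of `D` with ratio `l`. -/
def Good (D : Finset V) : Prop :=
  ∀ l : F, l ≠ 0 → l ≠ 1 → ∃ a b c : V → ℤ,
    (∀ x ∈ D, a x + b x + c x = 0) ∧
    ∀ x ∈ D, ∀ y ∈ D, ∀ z ∈ D, x ≠ z → y = l • x + (1 - l) • z → 0 < a x + b y + c z

end Pool.Agent.Caps
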