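import Mathlib
import Pool.Agent.Caps.Defs

namespace Pool.Agent.Caps

open Finset

variable {F : Type} [Field F] {V : Type} [AddCommGroup V] [Module F V]

/-- words over `D` of a fixed type -/
theorem lift_good [DecidableEq V] (D : Finset V) (hD : Good F D) (n : ℕ) :
    ∃ A : Finset (Fin n → V), IsAffineCap F A ∧ D.card ^ n ≤ A.card * (n + 1) ^ D.card := by
  classical
  -- all words
  set S : Finset (Fin n → V) := Fintype.piFinset (fun _ => D) with hS
  have hScard : S.card = D.card ^ n := by
    rw [hS, Fintype.card_piFinset]; simp
  -- the type of a word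
  let τ : (Fin n → V) → (D → Fin (n + 1)) := fun w v =>
    ⟨(univ.filter (fun i => w i = v.1)).card,
      Nat.lt_succ_of_le (by simpa using card_le_univ (univ.filter (fun i => w i = v.1)))⟩
  have hne : (univ : Finset (D → Fin (n + 1))).Nonempty := ⟨fun _ => 0, mem_univ _⟩
  obtain ⟨t, -, ht⟩ := exists_max_image univ (fun t => (S.filter (fun w => τ w = t)).card) hne
  refine ⟨S.filter (fun w => τ w = t), ?_, ?_⟩
  · intro x hx y hy z hz l hl0 hl1 hxyz
    by_contra hne
    obtain ⟨a, b, c, habc, hpos⟩ := hD l hl0 hl1
    rw [mem_filter] at hx hy hz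
    have hxD : ∀ i, x i ∈ D := fun i => by
      have := hx.1; rw [hS, Fintype.mem_piFinset] at this; exact this i
    have hyD : ∀ i, y i ∈ D := fun i => by
      have := hy.1; rw [hS, Fintype.mem_piFinset] at this; exact this i
    have hzD : ∀ i, z i ∈ D := fun i => by
      have := hz.1; rw [hS, Fintype.mem_piFinset] at this; exact this i
    -- sum over coordinates of a weight depends only on the type
    have key : ∀ (w : Fin n → V) (g : V → ℤ), (∀ i, w i ∈ D) → τ w = t →
        ∑ i, g (w i) = ∑ v : D, ((t v : ℕ) : ℤ) * g v.1 := by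
      intro w g hw hwt
      have h1 : ∑ i, g (w i) = ∑ i, ∑ v : D, if w i = v.1 then g v.1 else 0 := by
        refine sum_congr rfl fun i _ => ?_
        rw [Finset.sum_eq_single (⟨w i, hw i⟩ : D)]
        · simp
        · intro v _ hv
          rw [if_neg]
          intro h
          exact hv (Subtype.ext h.symm)
        · intro h; exact absurd (mem_univ _) h
      rw [h1, sum_comm]
      refine sum_congr rfl fun v _ => ?_
      rw [← sum_filter, sum_const, nsmul_eq_mul]
      congr 2
      have : (τ w v : ℕ) = (t v : ℕ) := by rw [hwt]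
      exact this
    have hsum : ∑ i, (a (x i) + b (y i) + c (z i)) = 0 := by
      rw [sum_add_distrib, sum_add_distrib, key x a hxD hx.2, key y b hyD hy.2, key z c hzD hz.2,
        ← sum_add_distrib, ← sum_add_distrib]
      refine sum_eq_zero fun v _ => ?_
      have := habc v.1 v.2
      rw [← mul_add, ← mul_add, this, mul_zero]
    have hterm : ∀ i, 0 ≤ a (x i) + b (y i) + c (z i) := by
      intro i
      have hi : y i = l • x i + (1 - l) • z i := by
        have := congrFun hxyz i; simpa using this
      by_cases h : x i = z i
      · have hyi : y i = x i := by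
          rw [hi, ← h, ← add_smul]; simp
        rw [hyi, ← h, habc _ (hxD i)]
      · exact (hpos _ (hxD i) _ (hyD i) _ (hzD i) h hi).le
    obtain ⟨i, hi⟩ := Function.ne_iff.mp hne
    have hpi : 0 < a (x i) + b (y i) + c (z i) := by
      have hi' : y i = l • x i + (1 - l) • z i := by
        have := congrFun hxyz i; simpa using this
      exact hpos _ (hxD i) _ (hyD i) _ (hzD i) hi hi'
    have := sum_pos' (fun i _ => hterm i) ⟨i, mem_univ i, hpi⟩
    omega
  · have h := card_le_mul_card_image_of_maps_to (s := S) (t := univ) (f := τ)
      (fun a _ => mem_univ _) (S.filter (fun w => τ w = t)).card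
      (fun b _ => ht b (mem_univ _))
    rw [hScard] at h
    simpa using h

end Pool.Agent.Caps
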