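import Mathlib
import Pool.Agent.Caps.Defs

namespace Pool.Agent.Caps

open Finset

variable {F : Type} [Field F]

/-- injective linear maps send affine caps to affine caps -/
theorem IsAffineCap.image {V W : Type} [AddCommGroup V] [Module F V] [AddCommGroup W] [Module F W]
    [DecidableEq W] (φ : V →ₗ[F] W) (hφ : Function.Injective φ) {A : Finset V}
    (hA : IsAffineCap F A) : IsAffineCap F (A.image φ) := by
  intro x hx y hy z hz l hl0 hl1 h
  rw [mem_image] at hx hy hz
  obtain ⟨x', hx', rfl⟩ := hx
  obtain ⟨y', hy', rfl⟩ := hy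
  obtain ⟨z', hz', rfl⟩ := hz
  have : y' = l • x' + (1 - l) • z' := by
    apply hφ
    rw [h]; simp
  rw [hA x' hx' y' hy' z' hz' l hl0 hl1 this]

/-- the affine part of projective space -/
noncomputable def emb (F : Type) [Field F] (d : ℕ) (v : Fin d → F) :
    Projectivization F (Fin (d + 1) → F) :=
  Projectivization.mk F (Fin.cons 1 v : Fin (d + 1) → F) (by
    intro h
    have := congrFun h 0
    simp at this)

theorem emb_inj (d : ℕ) : Function.Injective (emb F d) := by
  intro v w h
  rw [emb, emb, Projectivization.mk_eq_mk_iff'] at h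
  obtain ⟨a, ha⟩ := h
  have h0 := congrFun ha 0
  simp at h0
  subst h0
  funext i
  have := congrFun ha i.succ
  simpa using this.symm

theorem emb_mem (d : ℕ) (v : Fin d → F) (W : Submodule F (Fin (d + 1) → F)) :
    (emb F d v).submodule ≤ W ↔ (Fin.cons 1 v : Fin (d + 1) → F) ∈ W := by
  rw [emb, Projectivization.submodule_mk, Submodule.span_singleton_le_iff_mem]

theorem isCap_emb {d : ℕ} [DecidableEq (Projectivization F (Fin (d + 1) → F))]
    {A : Finset (Fin d → F)} (hA : IsAffineCap F A) : IsCap F d (A.image (emb F d)) := by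
  classical
  intro W hW
  by_contra hcon
  push Not at hcon
  have hfin : {P : Projectivization F (Fin (d + 1) → F) | P ∈ A.image (emb F d) ∧
      P.submodule ≤ W}.Finite := (A.image (emb F d)).finite_toSet.subset (fun P hP => hP.1)
  rw [Set.two_lt_ncard_iff hfin] at hcon
  obtain ⟨P, Q, R, ⟨hP, hPW⟩, ⟨hQ, hQW⟩, ⟨hR, hRW⟩, hPQ, hPR, hQR⟩ := hcon
  rw [mem_image] at hP hQ hR
  obtain ⟨x, hx, rfl⟩ := hP
  obtain ⟨z, hz, rfl⟩ := hQ
  obtain ⟨y, hy, rfl⟩ := hR
  rw [emb_mem] at hPW hQW hRW
  have hxz : x ≠ z := fun h => hPQ (by rw [h])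
  have hxy : x ≠ y := fun h => hPR (by rw [h])
  have hzy : z ≠ y := fun h => hQR (by rw [h])
  -- the vectors of x and z are independent
  have hind : LinearIndependent F ![(Fin.cons 1 x : Fin (d + 1) → F), Fin.cons 1 z] := by
    rw [LinearIndependent.pair_iff]
    intro s t hst
    have h0 := congrFun hst 0
    simp at h0
    have hs : t = -s := by linear_combination h0
    subst hs
    by_cases hs0 : s = 0
    · simp [hs0]
    · exfalso
      apply hxz
      funext i
      have := congrFun hst i.succ
      simp at this
      have h2 : s * (x i - z i) = 0 := by linear_combination this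
      rcases mul_eq_zero.mp h2 with h | h
      · exact absurd h hs0
      · linear_combination h
  have hspan : Submodule.span F {(Fin.cons 1 x : Fin (d + 1) → F), Fin.cons 1 z} = W := by
    have hle : Submodule.span F {(Fin.cons 1 x : Fin (d + 1) → F), Fin.cons 1 z} ≤ W := by
      rw [Submodule.span_le]
      intro v hv
      rcases hv with rfl | hv
      · exact hPW
      · rw [Set.mem_singleton_iff] at hv; rw [hv]; exact hQW
    refine Submodule.eq_of_le_of_finrank_eq hle ?_
    rw [hW]
    have h3 := finrank_span_eq_card hind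
    rw [Fintype.card_fin] at h3
    have hr : Set.range ![(Fin.cons 1 x : Fin (d + 1) → F), Fin.cons 1 z] =
        {(Fin.cons 1 x : Fin (d + 1) → F), Fin.cons 1 z} := Matrix.range_cons_cons_empty _ _ _
    rw [hr] at h3
    exact h3
  rw [← hspan, Submodule.mem_span_pair] at hRW
  obtain ⟨a, b, hab⟩ := hRW
  have h0 := congrFun hab 0
  simp at h0
  have hb : b = 1 - a := by linear_combination h0
  subst hb
  have hy' : y = a • x + (1 - a) • z := by
    funext i
    have := congrFun hab i.succ
    simp at this
    simp [this]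
  have ha0 : a ≠ 0 := by
    rintro rfl
    apply hzy
    rw [hy']; simp
  have ha1 : a ≠ 1 := by
    rintro rfl
    apply hxy
    rw [hy']; simp
  exact hxz (hA x hx y hy z hz a ha0 ha1 hy')

/-- the set of cap sizes is bounded -/
theorem bdd [Finite F] (d : ℕ) :
    BddAbove {m | ∃ K : Finset (Projectivization F (Fin (d + 1) → F)),
      IsCap F d K ∧ K.card = m} := by
  classical
  have : Fintype F := Fintype.ofFinite F
  have : Finite (Projectivization F (Fin (d + 1) → F)) := inferInstance
  have : Fintype (Projectivization F (Fin (d + 1) → F)) := Fintype.ofFinite _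
  refine ⟨Fintype.card (Projectivization F (Fin (d + 1) → F)), ?_⟩
  rintro m ⟨K, -, rfl⟩
  exact card_le_univ K

theorem card_le_capMax [Finite F] {d : ℕ} {A : Finset (Fin d → F)} (hA : IsAffineCap F A) :
    A.card ≤ capMax F d := by
  classical
  refine le_csSup (bdd d) ⟨A.image (emb F d), isCap_emb hA, ?_⟩
  exact card_image_of_injective _ (emb_inj d)

theorem card_le_capMax' [Finite F] {V : Type} [AddCommGroup V] [Module F V] {d : ℕ}
    (φ : V →ₗ[F] (Fin d → F)) (hφ : Function.Injective φ) {A : Finset V}
    (hA : IsAffineCap F A) : A.card ≤ capMax F d := by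
  classical
  have := card_le_capMax (IsAffineCap.image φ hφ hA)
  rwa [card_image_of_injective _ hφ] at this

end Pool.Agent.Caps
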