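import Mathlib
import Pool.Agent.Caps.Lift
import Pool.Agent.Caps.Proj

namespace Pool.Agent.Caps

open Finset Filter

variable {F : Type} [Field F]

/-- padding with zeros -/
theorem exists_emb {n k d : ℕ} (hnk : 0 < n * k) (h : n * k ≤ d) :
    ∃ φ : (Fin n → Fin k → F) →ₗ[F] (Fin d → F), Function.Injective φ := by
  classical
  have hn : 0 < n := Nat.pos_of_mul_pos_right hnk
  have hk : 0 < k := Nat.pos_of_mul_pos_left hnk
  have : Nonempty (Fin n × Fin k) := ⟨(⟨0, hn⟩, ⟨0, hk⟩)⟩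
  obtain ⟨e⟩ : Nonempty (Fin n × Fin k ↪ Fin d) := by
    apply Function.Embedding.nonempty_of_card_le
    simpa using h
  have hs : Function.Surjective (Function.invFun e) := Function.invFun_surjective e.injective
  refine ⟨(LinearMap.funLeft F F (Function.invFun e)).comp
    (LinearEquiv.curry F F (Fin n) (Fin k)).symm.toLinearMap, ?_⟩
  have h1 := LinearMap.funLeft_injective_of_surjective F F (Function.invFun e) hs
  exact h1.comp (LinearEquiv.curry F F (Fin n) (Fin k)).symm.injective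

/-- The finite form of the lifting theorem. -/
theorem good_bound [Finite F] {k : ℕ} (D : Finset (Fin k → F)) (hD : Good F D) {n d : ℕ}
    (hnk : 0 < n * k) (h : n * k ≤ d) :
    D.card ^ n ≤ capMax F d * (n + 1) ^ D.card := by
  classical
  obtain ⟨A, hA, hc⟩ := lift_good D hD n
  obtain ⟨φ, hφ⟩ := exists_emb (F := F) hnk h
  exact hc.trans (Nat.mul_le_mul_right _ (card_le_capMax' φ hφ hA))

/-- The asymptotic form. -/
theorem growth_of_bound {M : ℕ → ℕ} {s k : ℕ} (hk : 0 < k)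
    (hM : ∀ n d : ℕ, 0 < n → n * k ≤ d → s ^ n ≤ M d * (n + 1) ^ s) {c : ℝ} (hc : 0 ≤ c)
    (hcs : c ^ k < s) : ∀ᶠ d in atTop, c ^ d ≤ (M d : ℝ) := by
  have hs : (0 : ℝ) < s := lt_of_le_of_lt (pow_nonneg hc k) hcs
  have hs0 : 0 < s := by exact_mod_cast hs
  by_cases hc1 : c ≤ 1
  · filter_upwards [eventually_ge_atTop k] with d hd
    have h1 := hM 1 d one_pos (by simpa using hd)
    have h2 : 1 ≤ M d := by
      by_contra hcon
      have : M d = 0 := by omega
      rw [this] at h1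
      simp at h1
      omega
    calc c ^ d ≤ 1 := pow_le_one₀ hc hc1
      _ ≤ (M d : ℝ) := by exact_mod_cast h2
  · push Not at hc1
    have hcpos : 0 < c := by linarith
    have hck : 0 < c ^ k := pow_pos hcpos k
    set r : ℝ := c ^ k / s with hr
    have hr0 : 0 < r := div_pos hck hs
    have hr1 : r < 1 := by rw [hr, div_lt_one hs]; exact hcs
    have hlim := tendsto_pow_const_mul_const_pow_of_abs_lt_one s
      (show |r| < 1 by rw [abs_of_pos hr0]; exact hr1)
    -- n^s * r^n -> 0, use at n+1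
    have hlim' := hlim.comp (tendsto_add_atTop_nat 1)
    have hev : ∀ᶠ n in atTop, ((n + 1 : ℕ) : ℝ) ^ s * r ^ (n + 1) < r / c ^ k := by
      have := hlim'.eventually (gt_mem_nhds (show (0 : ℝ) < r / c ^ k from div_pos hr0 hck))
      simpa [Function.comp_def] using this
    obtain ⟨N, hN⟩ := eventually_atTop.mp hev
    filter_upwards [eventually_ge_atTop (k * (N + 1))] with d hd
    set n := d / k with hn
    have hnN : N + 1 ≤ n := by
      rw [hn, Nat.le_div_iff_mul_le hk, mul_comm]; exact hd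
    have hnk : n * k ≤ d := Nat.div_mul_le_self d k
    have hdk : d ≤ k * (n + 1) := by
      have := Nat.lt_mul_div_succ d hk
      exact this.le
    have h1 := hM n d (by omega) hnk
    have h1' : (s : ℝ) ^ n ≤ (M d : ℝ) * ((n + 1 : ℕ) : ℝ) ^ s := by exact_mod_cast h1
    have h2 := hN n (by omega)
    have h3 : c ^ d ≤ c ^ k * (c ^ k) ^ n := by
      calc c ^ d ≤ c ^ (k * (n + 1)) := pow_le_pow_right₀ hc1.le hdk
        _ = c ^ k * (c ^ k) ^ n := by rw [← pow_mul]; ring
    have hck' : c ^ k = r * s := by rw [hr]; field_simp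
    have h4 : c ^ k * (c ^ k) ^ n * ((n + 1 : ℕ) : ℝ) ^ s ≤ (s : ℝ) ^ n := by
      have h5 : ((n + 1 : ℕ) : ℝ) ^ s * r ^ n < 1 / c ^ k := by
        have : ((n + 1 : ℕ) : ℝ) ^ s * r ^ (n + 1) = (((n + 1 : ℕ) : ℝ) ^ s * r ^ n) * r := by
          ring
        rw [this] at h2
        have h6 : r / c ^ k = 1 / c ^ k * r := by ring
        rw [h6] at h2
        exact lt_of_mul_lt_mul_right h2 hr0.le
      have h7 : c ^ k * (((n + 1 : ℕ) : ℝ) ^ s * r ^ n) < 1 := by
        rw [lt_div_iff₀ hck] at h5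
        linarith
      calc c ^ k * (c ^ k) ^ n * ((n + 1 : ℕ) : ℝ) ^ s
          = c ^ k * (((n + 1 : ℕ) : ℝ) ^ s * r ^ n) * (s : ℝ) ^ n := by
            nth_rewrite 2 [hck']
            ring
        _ ≤ 1 * (s : ℝ) ^ n := by
            apply mul_le_mul_of_nonneg_right h7.le (by positivity)
        _ = (s : ℝ) ^ n := one_mul _
    have hpos : (0 : ℝ) < ((n + 1 : ℕ) : ℝ) ^ s := by positivity
    have h8 : c ^ d * ((n + 1 : ℕ) : ℝ) ^ s ≤ (M d : ℝ) * ((n + 1 : ℕ) : ℝ) ^ s := by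
      calc c ^ d * ((n + 1 : ℕ) : ℝ) ^ s ≤ c ^ k * (c ^ k) ^ n * ((n + 1 : ℕ) : ℝ) ^ s :=
            mul_le_mul_of_nonneg_right h3 hpos.le
        _ ≤ (s : ℝ) ^ n := h4
        _ ≤ _ := h1'
    exact le_of_mul_le_mul_right h8 hpos

/-- A good set `D` of `F^k` with `s` points gives caps of growth at least `s^(1/k)`. -/
theorem good_growth [Finite F] {k : ℕ} (hk : 0 < k) (D : Finset (Fin k → F)) (hD : Good F D)
    {c : ℝ} (hc : 0 ≤ c) (hcs : c ^ k < D.card) :
    ∀ᶠ d in atTop, c ^ d ≤ (capMax F d : ℝ) :=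
  growth_of_bound hk (fun _ _ hn h => good_bound D hD (Nat.mul_pos hn hk) h) hc hcs

end Pool.Agent.Caps
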