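import Mathlib
import Pool.Agent.Caps.Defs

/-! # A checker for good sets over prime fields -/

namespace Pool.Agent.Caps

open Finset

/-- the point of `(ZMod p)^k` with the base `p` code `x` -/
def dec (p k : ℕ) (x : ℕ) : Fin k → ZMod p := fun i => ((x / p ^ (i : ℕ) : ℕ) : ZMod p)

/-- the code of `m x + (1 - m) z` -/
def comb (p : ℕ) : ℕ → ℕ → ℕ → ℕ → ℕ
  | 0, _, _, _ => 0
  | k + 1, m, x, z => (m * x + (p + 1 - m) * z) % p + p * comb p k m (x / p) (z / p)

theorem comb_eq (p : ℕ) (m : ℕ) : ∀ (k c x z : ℕ), c < p ^ k →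
    (∀ i < k, (c / p ^ i) % p = (m * (x / p ^ i) + (p + 1 - m) * (z / p ^ i)) % p) →
    c = comb p k m x z := by
  intro k
  induction k with
  | zero => intro c x z hc _; simp at hc; simp [comb, hc]
  | succ k ih =>
    intro c x z hc h
    have h0 := h 0 (Nat.succ_pos k)
    simp only [pow_zero, Nat.div_one] at h0
    have h1 := ih (c / p) (x / p) (z / p)
      (by rw [pow_succ] at hc; exact Nat.div_lt_of_lt_mul (by rwa [mul_comm] at hc))
      (by
        intro i hi
        have := h (i + 1) (by omega)
        rw [pow_succ'] at this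
        simpa [Nat.div_div_eq_div_mul] using this)
    rw [comb, ← h0, ← h1]
    exact (Nat.mod_add_div c p).symm

/-- look up the entry `x` of the packed table `A` -/
def lk (A x : ℕ) : ℕ := (A >>> (10 * x)) % 1024

/-- the check for one ratio: the weights are `lk A x - 300` and so on -/
def chk (p k : ℕ) (L : List ℕ) (M : ℕ) (m A B C : ℕ) : Bool :=
  L.all fun x => (lk A x + lk B x + lk C x == 900) &&
    L.all fun z => (x == z) || (let y := comb p k m x z
      !(M.testBit y) || Nat.blt 900 (lk A x + lk B y + lk C z))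

/-- the check for all ratios -/
def chkAll (p k : ℕ) (L : List ℕ) (M : ℕ) (T : List (ℕ × ℕ × ℕ)) : Bool :=
  (L.all fun x => Nat.blt x (p ^ k) && M.testBit x) &&
  (List.range p).all fun m => Nat.blt m 2 ||
    (chk p k L M m (T.getD (m - 2) (0, 0, 0)).1 (T.getD (m - 2) (0, 0, 0)).2.1
      (T.getD (m - 2) (0, 0, 0)).2.2)

theorem dec_inj (p k : ℕ) : ∀ x y : ℕ, x < p ^ k → y < p ^ k →
    dec p k x = dec p k y → x = y := by
  intro x y hx hy h
  have hc : ∀ i < k, (x / p ^ i) % p = (y / p ^ i) % p := by
    intro i hi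
    have := congrFun h ⟨i, hi⟩
    simp only [dec] at this
    rwa [ZMod.natCast_eq_natCast_iff, Nat.ModEq] at this
  have h1 : x = comb p k 1 y 0 := comb_eq p 1 k x y 0 hx (by
    intro i hi; rw [hc i hi]; simp)
  have h2 : y = comb p k 1 y 0 := comb_eq p 1 k y y 0 hy (by
    intro i hi; simp)
  rw [h1, ← h2]

theorem good_of_chk (p k : ℕ) [Fact p.Prime] (L : List ℕ) (M : ℕ) (T : List (ℕ × ℕ × ℕ))
    (hnd : L.Nodup) (h : chkAll p k L M T = true) :
    ∃ D : Finset (Fin k → ZMod p), Good (ZMod p) D ∧ D.card = L.length := by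
  classical
  rw [chkAll, Bool.and_eq_true, List.all_eq_true, List.all_eq_true] at h
  obtain ⟨hL, hT⟩ := h
  have hlt : ∀ x ∈ L, x < p ^ k := by
    intro x hx
    have := hL x hx
    rw [Bool.and_eq_true] at this
    simpa [Nat.blt_eq] using this.1
  have hM : ∀ x ∈ L, M.testBit x = true := by
    intro x hx
    have := hL x hx
    rw [Bool.and_eq_true] at this
    exact this.2
  refine ⟨(L.map (dec p k)).toFinset, ?_, ?_⟩
  · intro l hl0 hl1
    set m := l.val with hm
    have hmp : m < p := ZMod.val_lt l
    have hlm : l = (m : ZMod p) := by rw [hm, ZMod.natCast_zmod_val]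
    have hm0 : m ≠ 0 := by
      intro h0; apply hl0; rw [hlm, h0]; simp
    have hm1 : m ≠ 1 := by
      intro h0; apply hl1; rw [hlm, h0]; simp
    have h1 := hT m (List.mem_range.mpr hmp)
    rw [Bool.or_eq_true] at h1
    rcases h1 with h1 | h1
    · rw [Nat.blt_eq] at h1; omega
    generalize (T.getD (m - 2) (0, 0, 0)).1 = A at h1
    generalize (T.getD (m - 2) (0, 0, 0)).2.1 = B at h1
    generalize (T.getD (m - 2) (0, 0, 0)).2.2 = C at h1
    rw [chk, List.all_eq_true] at h1
    -- the code of a point of D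
    let enc : (Fin k → ZMod p) → ℕ := fun v =>
      if hv : ∃ x ∈ L, dec p k x = v then hv.choose else 0
    have henc : ∀ x ∈ L, enc (dec p k x) = x := by
      intro x hx
      have hv : ∃ x' ∈ L, dec p k x' = dec p k x := ⟨x, hx, rfl⟩
      simp only [enc, dif_pos hv]
      exact dec_inj p k _ _ (hlt _ hv.choose_spec.1) (hlt _ hx) hv.choose_spec.2
    refine ⟨fun v => (lk A (enc v) : ℤ) - 300, fun v => (lk B (enc v) : ℤ) - 300,
      fun v => (lk C (enc v) : ℤ) - 300, ?_, ?_⟩
    · intro v hv
      rw [List.mem_toFinset, List.mem_map] at hv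
      obtain ⟨x, hx, rfl⟩ := hv
      have h2 := h1 x hx
      rw [Bool.and_eq_true] at h2
      have h3 : lk A x + lk B x + lk C x = 900 := by simpa using h2.1
      simp only [henc x hx]
      omega
    · intro v hv w hw u hu hvu hwvu
      rw [List.mem_toFinset, List.mem_map] at hv hw hu
      obtain ⟨x, hx, rfl⟩ := hv
      obtain ⟨y, hy, rfl⟩ := hw
      obtain ⟨z, hz, rfl⟩ := hu
      have hxz : x ≠ z := fun h => hvu (by rw [h])
      have hyc : y = comb p k m x z := by
        apply comb_eq p m k y x z (hlt y hy)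
        intro i hi
        have := congrFun hwvu ⟨i, hi⟩
        simp only [dec, Pi.add_apply, Pi.smul_apply, smul_eq_mul] at this
        have h4 : (((y / p ^ i : ℕ) : ZMod p)) =
            ((m * (x / p ^ i) + (p + 1 - m) * (z / p ^ i) : ℕ) : ZMod p) := by
          rw [this, hlm]
          push_cast [Nat.cast_sub (show m ≤ p + 1 by omega)]
          simp
        rwa [ZMod.natCast_eq_natCast_iff, Nat.ModEq] at h4
      have h2 := h1 x hx
      rw [Bool.and_eq_true, List.all_eq_true] at h2
      have h3 := h2.2 z hz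
      rw [Bool.or_eq_true] at h3
      rcases h3 with h3 | h3
      · exact absurd (by simpa using h3) hxz
      · simp only [← hyc, hM y hy, Bool.not_true, Bool.false_or] at h3
        rw [Nat.blt_eq] at h3
        simp only [henc x hx, henc y hy, henc z hz]
        omega
  · rw [List.toFinset_card_of_nodup, List.length_map]
    exact (List.nodup_map_iff_inj_on hnd).mpr
      (fun x hx y hy hxy => dec_inj p k x y (hlt x hx) (hlt y hy) hxy)

end Pool.Agent.Caps
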