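import Mathlib
import Pool.Agent.Caps.Check

namespace Pool.Agent.Caps

/-- the codes of a good set of `35` points of `(ZMod 5)^3` -/
def c5L : List ℕ :=
  [16, 105, 26, 21, 81, 118, 85, 69, 75, 5, 35, 108, 73, 79, 31, 1, 8, 28, 95, 52, 110, 124, 33, 53, 7, 66, 30, 97, 123, 63, 120, 25, 54, 96, 24]
def c5M : ℕ := 33564670328496949865500290861416645026
def c5T : List (ℕ × ℕ × ℕ) := [
  (6291239172164606158560265280060462299249696842070535584895139452675031781480156408536118368486440173132724288030697913596398367636709953127827656787008090506351510870323046543058376702620337296139555471207543499984996602617820695487047000623496829441438919698418990037822652300333859775293876836143047642758482244455497827568864587633195712108565484396001766404136186147051520, 5382063373330788534736211672744380922870742855134913977950648318552248442119699614478407647825642572227282734340472869411998178774353024517296475579218412464512169677226694139119228949251326074738664552093800192711241941135049082856561570938422263268486514757487228803669491185364947352601195713760878999542250926480231680335029273739576743048569653186992207986555508178058240, 5382063373330788534736211672744380922870742855134913977950648318552248442119699614478407647825642572227282734340472869411998178774353024517296475579218412464512169677226694139119228949251326074738664552093800192711241941135049082856561570938422263268486514757487228803669491185364947352601195713760878999542250926480231680335029273739576743048569653186992207986555508178058240),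
  (5382063373330788534736211672744380922870742855134913977950648318552248442119699614478407647825642572227282734340472869411998178774353024517296475579218412464512169677226694139119228949251326074738664552093800192711241941135049082856561570938422263268486514757487228803669491185364947352601195713760878999542250926480231680335029273739576743048569653186992207986555508178058240, 6291239172164606158560265280060462299249696842070535584895139452675031781480156408536118368486440173132724288030697913596398367636709953127827656787008090506351510870323046543058376702620337296139555471207543499984996602617820695487047000623496829441438919698418990037822652300333859775293876836143047642758482244455497827568864587633195712108565484396001766404136186147051520, 5382063373330788534736211672744380922870742855134913977950648318552248442119699614478407647825642572227282734340472869411998178774353024517296475579218412464512169677226694139119228949251326074738664552093800192711241941135049082856561570938422263268486514757487228803669491185364947352601195713760878999542250926480231680335029273739576743048569653186992207986555508178058240),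
  (5382063373330788534736211672744380922870742855134913977950648318552248442119699614478407647825642572227282734340472869411998178774353024517296475579218412464512169677226694139119228949251326074738664552093800192711241941135049082856561570938422263268486514757487228803669491185364947352601195713760878999542250926480231680335029273739576743048569653186992207986555508178058240, 5382063373330788534736211672744380922870742855134913977950648318552248442119699614478407647825642572227282734340472869411998178774353024517296475579218412464512169677226694139119228949251326074738664552093800192711241941135049082856561570938422263268486514757487228803669491185364947352601195713760878999542250926480231680335029273739576743048569653186992207986555508178058240, 6291239172164606158560265280060462299249696842070535584895139452675031781480156408536118368486440173132724288030697913596398367636709953127827656787008090506351510870323046543058376702620337296139555471207543499984996602617820695487047000623496829441438919698418990037822652300333859775293876836143047642758482244455497827568864587633195712108565484396001766404136186147051520)]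

instance fact5 : Fact (Nat.Prime 5) := ⟨by norm_num⟩

theorem c5_good : ∃ D : Finset (Fin 3 → ZMod 5), Good (ZMod 5) D ∧ D.card = 35 :=
  good_of_chk 5 3 c5L c5M c5T (by decide +kernel) (by decide +kernel)

end Pool.Agent.Caps
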