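import Mathlib
import Pool.Agent.Caps.Check

/-! # The field with eight elements, and a good set in its affine plane -/

namespace Pool.Agent.Caps

/-- the field with eight elements, `t^3 = t + 1`; the element `a + b t + c t^2` has the code
`a + 2 b + 4 c` -/
def F8 : Type := Fin 8

namespace F8

instance : DecidableEq F8 := inferInstanceAs (DecidableEq (Fin 8))
instance : Fintype F8 := inferInstanceAs (Fintype (Fin 8))

/-- reduction of a polynomial of degree at most four -/
def red (p : ℕ) : ℕ :=
  let p' := if 16 ≤ p then p ^^^ 22 else p
  if 8 ≤ p' then p' ^^^ 11 else p'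

/-- multiplication of codes -/
def mulN (a b : ℕ) : ℕ :=
  red ((a * (b % 2)) ^^^ ((2 * a) * ((b / 2) % 2)) ^^^ ((4 * a) * (b / 4)))

/-- the element with a given code -/
def of (n : ℕ) : F8 := (⟨n % 8, Nat.mod_lt _ (by norm_num)⟩ : Fin 8)

/-- the code of an element -/
def val (a : F8) : ℕ := (show Fin 8 from a).val

instance : Add F8 := ⟨fun a b => of (a.val ^^^ b.val)⟩
instance : Mul F8 := ⟨fun a b => of (mulN a.val b.val)⟩
instance : Zero F8 := ⟨of 0⟩
instance : One F8 := ⟨of 1⟩
instance : Neg F8 := ⟨fun a => a⟩
instance : Inv F8 := ⟨fun a => let b := a * a; let c := b * a; c * c⟩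

instance : CommRing F8 where
  add := (· + ·)
  mul := (· * ·)
  zero := 0
  one := 1
  neg := Neg.neg
  add_assoc := by decide +kernel
  zero_add := by decide +kernel
  add_zero := by decide +kernel
  add_comm := by decide +kernel
  neg_add_cancel := by decide +kernel
  mul_assoc := by decide +kernel
  mul_comm := by decide +kernel
  one_mul := by decide +kernel
  mul_one := by decide +kernel
  left_distrib := by decide +kernel
  right_distrib := by decide +kernel
  zero_mul := by decide +kernel
  mul_zero := by decide +kernel
  nsmul := nsmulRec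
  zsmul := zsmulRec

instance : Field F8 where
  inv := Inv.inv
  exists_pair_ne := ⟨0, 1, by decide +kernel⟩
  mul_inv_cancel := by decide +kernel
  inv_zero := by decide +kernel
  nnqsmul := _
  qsmul := _

theorem card_eq : Fintype.card F8 = 8 := by decide +kernel

theorem val_add : ∀ a b : F8, (a + b).val = a.val ^^^ b.val := by decide +kernel
theorem val_mul : ∀ a b : F8, (a * b).val = mulN a.val b.val := by decide +kernel
theorem val_one_sub : ∀ a : F8, (1 - a).val = 1 ^^^ a.val := by decide +kernel
theorem val_of : ∀ n : Fin 8, (of n.val).val = n.val := by decide +kernel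
theorem val_inj : ∀ a b : F8, a.val = b.val → a = b := by decide +kernel
theorem val_lt : ∀ a : F8, a.val < 8 := by decide +kernel

end F8

end Pool.Agent.Caps
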