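import Mathlib
import Pool.Agent.Caps.Defs

/-! # An elliptic quadric plus one point -/

namespace Pool.Agent.Caps

open Finset

variable {F : Type} [Field F]

/-- an irreducible monic quadratic -/
theorem exists_irred [Finite F] : ∃ b c : F, ∀ x : F, x ^ 2 + b * x + c ≠ 0 := by
  classical
  have hni : ¬ Function.Injective (fun p : F × F => ((p.1 + p.2, p.1 * p.2) : F × F)) := by
    intro h
    have := @h (0, 1) (1, 0) (by simp)
    simp at this
  have hns : ¬ Function.Surjective (fun p : F × F => ((p.1 + p.2, p.1 * p.2) : F × F)) := by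
    intro h
    exact hni (Finite.injective_iff_surjective.mpr h)
  rw [Function.Surjective] at hns
  push Not at hns
  obtain ⟨⟨s, t⟩, hst⟩ := hns
  refine ⟨-s, t, fun x hx => hst (x, s - x) ?_⟩
  simp only [Prod.mk.injEq]
  refine ⟨by ring, ?_⟩
  linear_combination -hx

theorem three_ne_zero_of [Fintype F] (h : ¬ 3 ∣ Fintype.card F) : (3 : F) ≠ 0 := by
  intro h3
  obtain ⟨p, hp⟩ := CharP.exists F
  obtain ⟨n, hpp, hn⟩ := FiniteField.card F p
  have hd : p ∣ 3 := (CharP.cast_eq_zero_iff F p 3).mp (by exact_mod_cast h3)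
  have hp3 : p = 3 := (Nat.prime_dvd_prime_iff_eq hpp Nat.prime_three).mp hd
  apply h
  rw [hn, hp3]
  exact dvd_pow_self 3 (PNat.ne_zero n)

theorem cube_root [Fintype F] (h : ¬ 3 ∣ Fintype.card F - 1) {x : F} (hx : x ^ 3 = -1) :
    x = -1 := by
  have h1 : (-x) ^ 3 = 1 := by
    have : (-x) ^ 3 = -(x ^ 3) := by ring
    rw [this, hx, neg_neg]
  have hx0 : -x ≠ 0 := by
    intro h0; rw [h0] at h1; norm_num at h1
  have h2 : (-x) ^ (Fintype.card F - 1) = 1 := FiniteField.pow_card_sub_one_eq_one _ hx0
  have h3 : orderOf (-x) ∣ 3 := orderOf_dvd_of_pow_eq_one h1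
  have h4 : orderOf (-x) ∣ Fintype.card F - 1 := orderOf_dvd_of_pow_eq_one h2
  have h5 : orderOf (-x) = 1 := by
    rcases (Nat.dvd_prime Nat.prime_three).mp h3 with h5 | h5
    · exact h5
    · rw [h5] at h4; exact absurd h4 h
  rw [orderOf_eq_one_iff] at h5
  linear_combination -h5

/-- the anisotropic form -/
def nrm (b c x y : F) : F := x ^ 2 + b * x * y + c * y ^ 2

theorem nrm_eq_zero {b c : F} (hbc : ∀ x : F, x ^ 2 + b * x + c ≠ 0) {x y : F}
    (h : nrm b c x y = 0) : x = 0 ∧ y = 0 := by
  rw [nrm] at h
  by_cases hy : y = 0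
  · subst hy
    refine ⟨?_, rfl⟩
    have : x ^ 2 = 0 := by linear_combination h
    exact pow_eq_zero_iff (two_ne_zero) |>.mp this
  · exfalso
    apply hbc (x / y)
    field_simp
    linear_combination h

/-- the weights of the levels -/
def dl [DecidableEq F] (u v : F) : ℤ := if u = v then 1 else 0

omit [Field F] in
theorem sum_dl [Fintype F] [DecidableEq F] (a : F) (g : F → ℤ) :
    ∑ v, dl v a * g v = g a := by
  simp [dl]

theorem quadric_good [Fintype F] (h3 : ¬ 3 ∣ Fintype.card F) (h3' : ¬ 3 ∣ Fintype.card F - 1) :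
    ∃ D : Finset (Fin 3 → F), Good F D ∧ D.card = Fintype.card F ^ 2 + 1 := by
  classical
  obtain ⟨b, c, hbc⟩ := exists_irred (F := F)
  have hthree := three_ne_zero_of h3
  let f : F × F → (Fin 3 → F) := fun p => ![p.1, p.2, nrm b c p.1 p.2]
  let e : Fin 3 → F := ![0, 0, 1]
  have hf : Function.Injective f := by
    intro p p' h
    have h0 := congrFun h 0
    have h1 := congrFun h 1
    simp only [f, Matrix.cons_val_zero, Matrix.cons_val_one] at h0 h1
    exact Prod.ext h0 h1
  have hfe : ∀ p, f p ≠ e := by
    intro p h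
    have h0 := congrFun h 0
    have h1 := congrFun h 1
    have h2 := congrFun h 2
    simp [f, e] at h0 h1 h2
    rw [h0, h1] at h2
    simp [nrm] at h2
  refine ⟨insert e (univ.image f), ?_, ?_⟩
  swap
  · rw [card_insert_of_notMem, card_image_of_injective _ hf, card_univ, Fintype.card_prod, sq]
    rw [mem_image]
    rintro ⟨p, -, hp⟩
    exact hfe p hp
  intro l hl0 hl1
  have hl1' : l - 1 ≠ 0 := sub_ne_zero.mpr hl1
  have hl1'' : 1 - l ≠ 0 := sub_ne_zero.mpr (Ne.symm hl1)
  -- the six levels
  obtain ⟨a1, ha1⟩ : ∃ a : F, a = -1 / l := ⟨_, rfl⟩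
  obtain ⟨a2, ha2⟩ : ∃ a : F, a = -l := ⟨_, rfl⟩
  obtain ⟨b2, hb2⟩ : ∃ a : F, a = l - 1 := ⟨_, rfl⟩
  obtain ⟨b3, hb3⟩ : ∃ a : F, a = 1 / (l - 1) := ⟨_, rfl⟩
  obtain ⟨c1, hc1⟩ : ∃ a : F, a = (1 - l) / l := ⟨_, rfl⟩
  obtain ⟨c3, hc3⟩ : ∃ a : F, a = l / (1 - l) := ⟨_, rfl⟩
  let m1 : F → ℤ := fun v => dl v a1 + dl v c1
  let m2 : F → ℤ := fun v => dl v a2 + dl v b2
  let m3 : F → ℤ := fun v => dl v b3 + dl v c3
  let al : F → ℤ := fun v => 2 * m1 v - m2 v - m3 v
  let be : F → ℤ := fun v => 2 * m2 v - m1 v - m3 v
  let ga : F → ℤ := fun v => 2 * m3 v - m1 v - m2 v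
  let S : ℤ := al a1 + al c1 + be a2 + be b2 + ga b3 + ga c3
  have hS : S = ∑ v, ((m1 v - m2 v) ^ 2 + (m2 v - m3 v) ^ 2 + (m1 v - m3 v) ^ 2) := by
    have : S = ∑ v, (dl v a1 * al v + dl v c1 * al v + dl v a2 * be v + dl v b2 * be v
        + dl v b3 * ga v + dl v c3 * ga v) := by
      rw [sum_add_distrib, sum_add_distrib, sum_add_distrib, sum_add_distrib, sum_add_distrib,
        sum_dl, sum_dl, sum_dl, sum_dl, sum_dl, sum_dl]
    rw [this]
    refine sum_congr rfl fun v _ => ?_
    simp only [al, be, ga, m1, m2, m3]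
    ring
  have hSpos : 0 < S := by
    have hle : (m1 a1 - m2 a1) ^ 2 + (m2 a1 - m3 a1) ^ 2 + (m1 a1 - m3 a1) ^ 2 ≤ S := by
      rw [hS]
      exact single_le_sum (f := fun v => (m1 v - m2 v) ^ 2 + (m2 v - m3 v) ^ 2
        + (m1 v - m3 v) ^ 2) (fun v _ => by positivity) (mem_univ a1)
    by_contra hcon
    have h0 : (m1 a1 - m2 a1) ^ 2 + (m2 a1 - m3 a1) ^ 2 + (m1 a1 - m3 a1) ^ 2 ≤ 0 := by
      linarith
    have e12 : m1 a1 = m2 a1 := by
      have : (m1 a1 - m2 a1) ^ 2 = 0 := le_antisymm (by
        linarith [sq_nonneg (m2 a1 - m3 a1), sq_nonneg (m1 a1 - m3 a1)]) (sq_nonneg _)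
      exact sub_eq_zero.mp (pow_eq_zero_iff two_ne_zero |>.mp this)
    have e13 : m1 a1 = m3 a1 := by
      have : (m1 a1 - m3 a1) ^ 2 = 0 := le_antisymm (by
        linarith [sq_nonneg (m2 a1 - m3 a1), sq_nonneg (m1 a1 - m2 a1)]) (sq_nonneg _)
      exact sub_eq_zero.mp (pow_eq_zero_iff two_ne_zero |>.mp this)
    have hm1 : 1 ≤ m1 a1 := by
      simp only [m1, dl]
      split_ifs <;> simp_all
    have hkey : l ^ 2 - l + 1 = 0 → False := by
      intro h
      have hc : l ^ 3 = -1 := by linear_combination (l + 1) * h
      have hl := cube_root h3' hc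
      rw [hl] at h
      apply hthree
      linear_combination h
    have h12 : a1 = a2 ∨ a1 = b2 := by
      by_contra hno
      push Not at hno
      have : m2 a1 = 0 := by simp [m2, dl, hno.1, hno.2]
      omega
    have h13 : a1 = b3 ∨ a1 = c3 := by
      by_contra hno
      push Not at hno
      have : m3 a1 = 0 := by simp [m3, dl, hno.1, hno.2]
      omega
    rcases h12 with h12 | h12
    · have hl2 : l ^ 2 = 1 := by
        rw [ha1, ha2] at h12
        field_simp at h12
        linear_combination h12
      rcases h13 with h13 | h13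
      · rw [ha1, hb3] at h13
        field_simp at h13
        have h2l : 2 * l = 1 := by linear_combination -h13
        apply hthree
        linear_combination (-4) * hl2 + (2 * l + 1) * h2l
      · rw [ha1, hc3] at h13
        field_simp at h13
        apply hkey
        linear_combination -h13
    · rw [ha1, hb2] at h12
      field_simp at h12
      apply hkey
      linear_combination -h12
  -- the weights
  let A0 : ℤ := al a1 + be a2
  let B0 : ℤ := be b2 + ga b3
  let C0 : ℤ := al c1 + ga c3
  refine ⟨fun v => if v = e then S - 3 * B0 else 3 * al (v 2),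
    fun v => if v = e then S - 3 * C0 else 3 * be (v 2),
    fun v => if v = e then S - 3 * A0 else 3 * ga (v 2), ?_, ?_⟩
  · intro v _
    by_cases hv : v = e
    · simp only [hv, if_true, S, A0, B0, C0]; ring
    · simp only [hv, if_false, al, be, ga]; ring
  · intro x hx y hy z hz hxz hxyz
    rw [mem_insert, mem_image] at hx hy hz
    have k0 := congrFun hxyz 0
    have k1 := congrFun hxyz 1
    have k2 := congrFun hxyz 2
    simp only [Pi.add_apply, Pi.smul_apply, smul_eq_mul] at k0 k1 k2
    rcases hx with rfl | ⟨⟨x0, x1⟩, -, rfl⟩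
    · rcases hz with rfl | ⟨⟨z0, z1⟩, -, rfl⟩
      · exact absurd rfl hxz
      · rcases hy with rfl | ⟨⟨y0, y1⟩, -, rfl⟩
        · exfalso
          apply hxz
          funext i
          have := congrFun hxyz i
          simp only [Pi.add_apply, Pi.smul_apply, smul_eq_mul] at this
          have h5 : (1 - l) * (e i - f (z0, z1) i) = 0 := by linear_combination this
          rcases mul_eq_zero.mp h5 with h | h
          · exact absurd h hl1''
          · linear_combination h
        · -- x = e
          simp [f, e, nrm] at k0 k1 k2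
          have hz2 : nrm b c z0 z1 = b3 := by
            rw [hb3, eq_div_iff hl1']
            have h6 : l * (1 - l) * (nrm b c z0 z1 * (l - 1) - 1) = 0 := by
              rw [nrm]
              rw [k0, k1] at k2
              linear_combination (1 - l) * k2
            rcases mul_eq_zero.mp h6 with h | h
            · exact absurd h (mul_ne_zero hl0 hl1'')
            · linear_combination h
          have hy2 : nrm b c y0 y1 = b2 := by
            have : nrm b c y0 y1 = (1 - l) ^ 2 * nrm b c z0 z1 := by
              rw [nrm, nrm, k0, k1]; ring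
            rw [this, hz2, hb2, hb3]
            field_simp
            ring
          have hf1 : f (y0, y1) 2 = nrm b c y0 y1 := rfl
          have hf2 : f (z0, z1) 2 = nrm b c z0 z1 := rfl
          simp only [if_true, if_neg (hfe _), hf1, hf2, hy2, hz2]
          have : S - 3 * B0 + 3 * be b2 + 3 * ga b3 = S := by simp only [B0]; ring
          rw [this]; exact hSpos
    · rcases hz with rfl | ⟨⟨z0, z1⟩, -, rfl⟩
      · rcases hy with rfl | ⟨⟨y0, y1⟩, -, rfl⟩
        · exfalso
          apply hxz
          funext i
          have := congrFun hxyz i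
          simp only [Pi.add_apply, Pi.smul_apply, smul_eq_mul] at this
          have h5 : l * (f (x0, x1) i - e i) = 0 := by linear_combination -this
          rcases mul_eq_zero.mp h5 with h | h
          · exact absurd h hl0
          · linear_combination h
        · -- z = e
          simp [f, e, nrm] at k0 k1 k2
          have hx2 : nrm b c x0 x1 = a1 := by
            rw [ha1, eq_div_iff hl0]
            have h6 : (l - 1) * (nrm b c x0 x1 * l - (-1)) = 0 := by
              rw [nrm]
              rw [k0, k1] at k2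
              linear_combination k2
            rcases mul_eq_zero.mp h6 with h | h
            · exact absurd h hl1'
            · linear_combination h
          have hy2 : nrm b c y0 y1 = a2 := by
            have : nrm b c y0 y1 = l ^ 2 * nrm b c x0 x1 := by
              rw [nrm, nrm, k0, k1]; ring
            rw [this, hx2, ha1, ha2]
            field_simp
          have hf1 : f (y0, y1) 2 = nrm b c y0 y1 := rfl
          have hf2 : f (x0, x1) 2 = nrm b c x0 x1 := rfl
          simp only [if_true, if_neg (hfe _), hf1, hf2, hy2, hx2]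
          have : 3 * al a1 + 3 * be a2 + (S - 3 * A0) = S := by simp only [A0]; ring
          rw [this]; exact hSpos
      · rcases hy with rfl | ⟨⟨y0, y1⟩, -, rfl⟩
        · -- y = e
          simp [f, e, nrm] at k0 k1 k2
          have hx0 : x0 = -((1 - l) * z0) / l := by
            rw [eq_div_iff hl0]; linear_combination -k0
          have hx1 : x1 = -((1 - l) * z1) / l := by
            rw [eq_div_iff hl0]; linear_combination -k1
          have hxz2 : nrm b c x0 x1 = ((1 - l) / l) ^ 2 * nrm b c z0 z1 := by
            rw [nrm, nrm, hx0, hx1]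
            field_simp
          have k2' : 1 = l * nrm b c x0 x1 + (1 - l) * nrm b c z0 z1 := by
            rw [nrm, nrm]; linear_combination k2
          have hz2 : nrm b c z0 z1 = c3 := by
            rw [hc3, eq_div_iff hl1'']
            rw [hxz2] at k2'
            field_simp at k2'
            linear_combination -k2'
          have hx2 : nrm b c x0 x1 = c1 := by
            rw [hxz2, hz2, hc1, hc3]
            field_simp
          have hf1 : f (x0, x1) 2 = nrm b c x0 x1 := rfl
          have hf2 : f (z0, z1) 2 = nrm b c z0 z1 := rfl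
          simp only [if_true, if_neg (hfe _), hf1, hf2, hx2, hz2]
          have : 3 * al c1 + (S - 3 * C0) + 3 * ga c3 = S := by simp only [C0]; ring
          rw [this]; exact hSpos
        · -- all three on the quadric
          exfalso
          simp [f, nrm] at k0 k1 k2
          have h6 : l * (1 - l) * nrm b c (x0 - z0) (x1 - z1) = 0 := by
            rw [nrm]
            rw [k0, k1] at k2
            linear_combination -k2
          have h7 : nrm b c (x0 - z0) (x1 - z1) = 0 := by
            rcases mul_eq_zero.mp h6 with h | h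
            · exact absurd h (mul_ne_zero hl0 hl1'')
            · exact h
          obtain ⟨h8, h9⟩ := nrm_eq_zero hbc h7
          apply hxz
          rw [sub_eq_zero.mp h8, sub_eq_zero.mp h9]

end Pool.Agent.Caps
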