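import Mathlib
import Pool.Agent.Caps.Defs

namespace Pool.Agent.Caps

open Finset

/-- good sets can be moved along isomorphisms of fields -/
theorem good_transfer {F F' : Type} [Field F] [Field F'] (e : F ≃+* F') {k s : ℕ}
    (h : ∃ D : Finset (Fin k → F), Good F D ∧ D.card = s) :
    ∃ D : Finset (Fin k → F'), Good F' D ∧ D.card = s := by
  classical
  obtain ⟨D, hD, hs⟩ := h
  have hinj : Function.Injective (fun (x : Fin k → F) (i : Fin k) => e (x i)) := by
    intro x y hxy
    funext i
    exact e.injective (congrFun hxy i)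
  refine ⟨D.image (fun x i => e (x i)), ?_, by rw [card_image_of_injective _ hinj, hs]⟩
  intro l hl0 hl1
  obtain ⟨a, b, c, h1, h2⟩ := hD (e.symm l) (by simpa using hl0)
    (by intro h; apply hl1; rw [← e.apply_symm_apply l, h, map_one])
  refine ⟨fun v => a (fun i => e.symm (v i)), fun v => b (fun i => e.symm (v i)),
    fun v => c (fun i => e.symm (v i)), ?_, ?_⟩
  · intro v hv
    rw [mem_image] at hv
    obtain ⟨x, hx, rfl⟩ := hv
    simpa using h1 x hx
  · intro v hv w hw u hu hvu hwvu
    rw [mem_image] at hv hw hu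
    obtain ⟨x, hx, rfl⟩ := hv
    obtain ⟨y, hy, rfl⟩ := hw
    obtain ⟨z, hz, rfl⟩ := hu
    have hxz : x ≠ z := by rintro rfl; exact hvu rfl
    have hy' : y = e.symm l • x + (1 - e.symm l) • z := by
      funext i
      have := congrFun hwvu i
      simp only [Pi.add_apply, Pi.smul_apply, smul_eq_mul] at this ⊢
      apply e.injective
      rw [this]; simp
    simpa using h2 x hx y hy z hz hxz hy'

theorem good_of_card {F F' : Type} [Field F] [Fintype F] [Field F'] [Fintype F']
    (hc : Fintype.card F = Fintype.card F') {k s : ℕ}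
    (h : ∃ D : Finset (Fin k → F), Good F D ∧ D.card = s) :
    ∃ D : Finset (Fin k → F'), Good F' D ∧ D.card = s :=
  good_transfer (FiniteField.ringEquivOfCardEq hc) h

end Pool.Agent.Caps
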